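import Pool.Agent.R793.PR.Red

/-!
The exponent in the `p`-root closure of the algebra of polarizations is bounded independently of
the number of copies.

`k` is a field of characteristic `p > 0`, `G` a finite group, `V` a finite-dimensional `k`-vector
space with a linear action `ρ` of `G`, and `b` a basis of `V` indexed by `ι`. The ring `k[V]` is
`MvPolynomial ι k`, where `X i` is the `i`-th coordinate, and `k[V^n]` is
`MvPolynomial (ι × Fin n) k`, where `X (i, j)` is the `i`-th coordinate of the `j`-th vector.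
-/

set_option autoImplicit false

namespace Pool.Agent.Results.MP_d2bd57_al.UniformPRootClosure

open MvPolynomial

section Defs

variable {k : Type*} [Field k] {ι : Type*} [Fintype ι] [DecidableEq ι] {G : Type*} [Group G]
  {V : Type*} [AddCommGroup V] [Module k V]

/-- The ring `k[V]^G`: the polynomials `f` with `f(g v) = f(v)` for all `g`. -/
noncomputable def invV (ρ : Representation k G V) (b : Module.Basis ι k V) :
    Subalgebra k (MvPolynomial ι k) :=
  ⨅ g : G, AlgHom.equalizer
    (aeval fun i => ∑ l, C (LinearMap.toMatrix b b (ρ g) i l) * X l) (AlgHom.id k _)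

/-- The ring `k[V^n]^G`: the polynomials `f` with `f(g v₁, …, g vₙ) = f(v₁, …, vₙ)` for all
`g`. -/
noncomputable def invVn (ρ : Representation k G V) (b : Module.Basis ι k V) (n : ℕ) :
    Subalgebra k (MvPolynomial (ι × Fin n) k) :=
  ⨅ g : G, AlgHom.equalizer
    (aeval fun v => ∑ l, C (LinearMap.toMatrix b b (ρ g) v.1 l) * X (l, v.2)) (AlgHom.id k _)

/-- The polarization `f_β`: the coefficient of `t^β` in `f(t₁ v₁ + … + tₙ vₙ)`. -/
noncomputable def polarization {n : ℕ} (f : MvPolynomial ι k) (β : Fin n →₀ ℕ) :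
    MvPolynomial (ι × Fin n) k :=
  coeff β (aeval (R := k) (fun i => ∑ j : Fin n, X j * C (X (i, j))) f :
    MvPolynomial (Fin n) (MvPolynomial (ι × Fin n) k))

/-- The algebra generated by the polarizations of the elements of `S`. -/
noncomputable def polAlg (S : Set (MvPolynomial ι k)) (n : ℕ) :
    Subalgebra k (MvPolynomial (ι × Fin n) k) :=
  Algebra.adjoin k {q | ∃ f ∈ S, ∃ β : Fin n →₀ ℕ, q = polarization f β}

end Defs

theorem result (k : Type*) [Field k] (p : ℕ) [Fact p.Prime] [CharP k p] (G : Type*) [Group G]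
    [Finite G] (V : Type*) [AddCommGroup V] [Module k V] (ρ : Representation k G V) (ι : Type*)
    [Fintype ι] [DecidableEq ι] (b : Module.Basis ι k V) :
    ∃ d : ℕ, ∀ S : Set (MvPolynomial ι k), Algebra.adjoin k S = invV ρ b →
      ∀ n : ℕ, ∀ f ∈ invVn ρ b n, f ^ p ^ d ∈ polAlg S n := by
  obtain ⟨d, hd⟩ := Pool.Agent.R793.PR.main
    (((LinearMap.toMatrixAlgEquiv b : (V →ₗ[k] V) ≃ₐ[k] Matrix ι ι k) :
      (V →ₗ[k] V) →* Matrix ι ι k).comp ρ) p
  refine ⟨d, fun S hS n f hf => ?_⟩
  have hf' : ∀ g : G, aeval (fun v : ι × Fin n => ∑ l,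
      C (LinearMap.toMatrix b b (ρ g) v.1 l) * X (l, v.2)) f = f := by
    intro g
    exact (Algebra.mem_iInf.mp hf) g
  have h1 := hd n f hf'
  refine Pool.Agent.R793.PR.PP_le (fun h hh => ?_) h1
  rw [hS]
  refine Algebra.mem_iInf.mpr fun g => ?_
  exact hh g

end Pool.Agent.Results.MP_d2bd57_al.UniformPRootClosure
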